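import Pool.Agent.X308.H.Main

/-!
# MP_c1eb4d_ag: from proper regular arithmetic schemes to all arithmetic schemes

`M` consists of the groups `H^i(X_et, ℤ^c(n))`. Their known properties for `n < 0` which are used
are listed in `KnownProperties` (empty scheme, isomorphisms, localization, Mayer-Vietoris, homotopy
invariance) and in `FurtherProperties`: exactness of the localization sequence at the open
subscheme; `H^i(X_et, ℤ^c(n))/N` is finite for `N ≠ 0`; the theorem of de Jong on alterations
together with restriction and transfer for finite flat morphisms; the injection
`H^(i+2)(X_et, ℤ^c(n-1)) → H^i(ℙ^1_X, ℤ^c(n))`; and, for proper regular `X`, finite generation in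
the degrees `i ≤ -2n + 1` implies finite generation in all degrees (listed as known in the problem).

Theorem. (A) For every `n < 0` the following are equivalent:
(1) `H^i(X_et, ℤ^c(n))` is finitely generated for all proper regular arithmetic schemes `X` and all
`i ≤ -2n + 1`;
(2) `H^i(X_et, ℤ^c(n))` is finitely generated for all arithmetic schemes `X` and all `i`;
(3) every finitely generated domain `C` has a nonzero element `f` such that the groups
`H^i((Spec C[1/f])_et, ℤ^c(n))` are finitely generated for all `i`;
(4) the same as (2) for the complements, in affine spaces over `ℤ`, of finite unions of
hypersurfaces of the forms `x_i = 1`, `x_i + x_j = x_k`, `x_i x_j = x_k`.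
(B) Q1, that is (1) for all `n < 0`, is equivalent to (1) for `n = -1` alone, to finite generation for
all arithmetic schemes and all `n < 0`, to (3) for `n = -1`, and to (4) for `n = -1`.

Proof of (1) ⇒ (2). By localization and the sequence of Mayer and Vietoris it suffices to consider
affine schemes. One proceeds by induction on the dimension and noetherian induction; this leads to a
finitely generated domain `C` such that the statement is known for all proper quotients of `C` and
for all arithmetic schemes of dimension less than that of `C`. Let `V → Spec C[1/f]` be finite and
flat of degree `N`, `V` the complement of a closed subscheme `Z` of smaller dimension in a proper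
regular scheme `Y`. By localization the groups of `V` are finitely generated. By the transfer the
group `N H^i(Spec C[1/f])` is a quotient of a subgroup of `H^i(V)`, so it is finitely generated, and
`H^i(Spec C[1/f])/N` is finite. By localization the groups of `Spec C` are finitely generated.
-/

set_option autoImplicit false

universe v

namespace Pool.Agent.Results.MP_c1eb4d_ag.FromProperRegularToAll

open Pool.Agent.X308.F Pool.Agent.X308.H

/-- For every `n < 0`, Q1 in weight `n` (for proper regular arithmetic schemes) is equivalent to
finite generation in weight `n` for all arithmetic schemes; and Q1 is equivalent to its part in
weight `-1`. Both are equivalent to statements about generic points and about explicit open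
subschemes of affine spaces. -/
theorem result (M : CycleCohomology.{v}) (hM : KnownProperties M) (hF : FurtherProperties M) :
    (∀ n : ℤ, n < 0 → List.TFAE [ProperRegularInWeight M n, FiniteGenerationInWeight M n,
      GenericInWeight M n, FiniteGenerationOfComplements M n]) ∧
    List.TFAE [ProperRegularFiniteGeneration M, ProperRegularInWeight M (-1),
      FiniteGeneration M, GenericInWeight M (-1), FiniteGenerationOfComplements M (-1)] :=
  ⟨fun _ hn => inWeight_tfae hM hF hn, all_tfae hM hF⟩

end Pool.Agent.Results.MP_c1eb4d_ag.FromProperRegularToAll
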