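import Pool.Agent.X264.MW.Main

/-!
# The Flach-Morin conjecture follows from finite generation in weight `d`
-/

set_option autoImplicit false

open Pool.Agent.X264.MW

namespace Pool.Agent.Results.MP_c1eb4d_ag.FromTheTopWeight

universe u

/-- **From the top weight.** The groups `H^i(X_et, ℤ(d))`, `d = dim X`, are finitely generated for all
`X` and `0 ≤ i ≤ 2 d + 1` if and only if Q1 holds and `H^i(X_et, ℤ^c(0))` is finitely generated for all
`X` and `i ≤ 1`. -/
theorem result (T : Theory.{u}) (hT : T.HasProjectiveSpaces) :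
    (∀ X (i : ℤ), 0 ≤ i → i ≤ 2 * T.dim X + 1 → T.IsTopFG X i) ↔
      (∀ X (n i : ℤ), n < 0 → i ≤ -2 * n + 1 → T.IsFG X n i) ∧
        ∀ X (i : ℤ), i ≤ 1 → T.IsFG X 0 i := by
  have h := Theory.main hT 1
  simp only [Nat.cast_one] at h
  rw [h]
  constructor
  · intro h1
    exact ⟨fun X n i hn hi => h1 X n i hn.le hi, fun X i hi => h1 X 0 i le_rfl (by omega)⟩
  · rintro ⟨h1, h2⟩ X n i hn hi
    rcases hn.lt_or_eq with h3 | h3
    · exact h1 X n i h3 hi
    · subst h3
      exact h2 X i (by omega)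

end Pool.Agent.Results.MP_c1eb4d_ag.FromTheTopWeight
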